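import Mathlib.Combinatorics.SimpleGraph.Metric
import Mathlib.Combinatorics.SimpleGraph.Finite
import Mathlib.Tactic

/-!
# A 5-regular self 2-distance graph (MP_325f40_co)

The graph of the icosahedron is isomorphic to its own 2-distance graph.
-/

namespace Pool.Agent.Results.MP_325f40_co.Icosahedron

/-- The 2-distance graph of `Γ`: two vertices are adjacent iff their distance in `Γ` is exactly
`2` (the extended distance is used, so vertices in different components are at distance `∞`). -/
def twoDistanceGraph {V : Type*} (Γ : SimpleGraph V) : SimpleGraph V where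
  Adj u v := Γ.edist u v = 2
  symm := ⟨fun u v h => by rw [SimpleGraph.edist_comm]; exact h⟩
  loopless := ⟨fun v h => by simp at h⟩

/-- Adjacency rows of the icosahedron, as bit masks. -/
def row (i : Fin 12) : ℕ :=
  [0x3e, 0xe5, 0x18b, 0x315, 0x629, 0x453, 0xca2, 0x946, 0xa8c, 0xd18, 0xa70, 0x7c0].getD i.val 0

/-- The graph of the icosahedron. -/
def ico : SimpleGraph (Fin 12) where
  Adj i j := (row i).testBit j.val = true
  symm := ⟨by decide⟩
  loopless := ⟨by decide⟩

instance : DecidableRel ico.Adj :=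
  fun i j => inferInstanceAs (Decidable ((row i).testBit j.val = true))

/-- The isomorphism on vertices. -/
def m (i : Fin 12) : Fin 12 := ([0, 10, 7, 9, 6, 8, 1, 3, 5, 2, 4, 11] : List (Fin 12)).getD i.val 0

/-- Its inverse. -/
def m' (i : Fin 12) : Fin 12 :=
  ([0, 6, 9, 7, 10, 8, 4, 2, 5, 3, 1, 11] : List (Fin 12)).getD i.val 0

/-- The isomorphism on vertices, as an equivalence. -/
def e : Fin 12 ≃ Fin 12 where
  toFun := m
  invFun := m'
  left_inv := by decide
  right_inv := by decide

theorem key : ∀ u v : Fin 12,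
    ico.Adj (m u) (m v) ↔ (u ≠ v ∧ ¬ ico.Adj u v ∧ ∃ w, ico.Adj u w ∧ ico.Adj v w) := by
  decide +kernel

theorem ico_connected : ico.Connected := by
  have h : ∀ v : Fin 12, v = 0 ∨ ico.Adj 0 v ∨ (∃ w, ico.Adj 0 w ∧ ico.Adj w v) ∨
      (∃ w x, ico.Adj 0 w ∧ ico.Adj w x ∧ ico.Adj x v) := by
    decide +kernel
  have hr : ∀ v : Fin 12, ico.Reachable 0 v := by
    intro v
    rcases h v with rfl | h | ⟨w, h1, h2⟩ | ⟨w, x, h1, h2, h3⟩
    · exact SimpleGraph.Reachable.refl _
    · exact h.reachable
    · exact h1.reachable.trans h2.reachable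
    · exact h1.reachable.trans (h2.reachable.trans h3.reachable)
  exact ⟨fun u v => (hr u).symm.trans (hr v)⟩

/-- There is an odd `k` and a connected finite `k`-regular graph isomorphic to its 2-distance
graph. -/
theorem result : ∃ (k n : ℕ) (Γ : SimpleGraph (Fin n)) (_ : DecidableRel Γ.Adj),
    Odd k ∧ Γ.IsRegularOfDegree k ∧ Γ.Connected ∧ Nonempty (twoDistanceGraph Γ ≃g Γ) := by
  refine ⟨5, 12, ico, inferInstance, by decide, ?_, ico_connected, ?_⟩
  · unfold SimpleGraph.IsRegularOfDegree
    decide
  · refine ⟨⟨e, ?_⟩⟩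
    intro u v
    show ico.Adj (m u) (m v) ↔ ico.edist u v = 2
    rw [key, SimpleGraph.edist_eq_two_iff]
    simp only [Set.Nonempty, SimpleGraph.mem_commonNeighbors]

end Pool.Agent.Results.MP_325f40_co.Icosahedron
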